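import Pool.Agent.W2helper22.CU.Stmts2

/-!
# FINM: the choice of `p`
-/

set_option autoImplicit false

namespace Pool.Agent.W2helper97.CU

open Finset Pool.Agent.H540R2 Pool.Agent.W2helper86.KQ Pool.Agent.W2helper22.CU

theorem qq_pos {κ : ℕ} (h : 1 ≤ κ) : 0 < qq κ := by
  unfold qq
  have h1 : (0 : ℝ) < κ := by exact_mod_cast h
  have h2 : (0 : ℝ) < (κ.factorial : ℝ) := by exact_mod_cast κ.factorial_pos
  positivity

theorem qq_le {κ : ℕ} (h : 1 ≤ κ) : qq κ ≤ 1 := by
  unfold qq
  have h1 : (0 : ℝ) < κ := by exact_mod_cast h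
  rw [div_le_one (by positivity)]
  exact_mod_cast κ.factorial_le_pow

theorem p_finm : P_MAINM → P_FINM := by
  intro hM k hk
  set q : ℝ := qq (k - 1) with hq
  have hk1 : 1 ≤ k - 1 := by omega
  have q0 : 0 < q := qq_pos hk1
  have q1 : q ≤ 1 := qq_le hk1
  set c : ℝ := (k + 2) + 2 + Real.log (1 / q) / Real.log 2 with hc
  have l2 : 0 < Real.log 2 := Real.log_pos (by norm_num)
  have lq : 0 ≤ Real.log (1 / q) := Real.log_nonneg (by rw [le_div_iff₀ q0]; linarith)
  have c0 : 0 < c := by positivity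
  set d : ℝ := c / q + 2 / Real.log 2 with hd
  have d0 : 0 < d := by positivity
  refine ⟨3 * (d ^ (k - 1) * ((k - 1).factorial : ℝ)) ^ 2, ?_⟩
  intro n H hN C hC hS
  set N : ℕ := cliques H k with hNd
  have N2 : (2 : ℝ) ≤ (N : ℝ) := by exact_mod_cast hN
  have N0 : (0 : ℝ) < (N : ℝ) := by linarith
  have lN : Real.log 2 ≤ Real.log N := Real.log_le_log (by norm_num) N2
  have lN0 : 0 < Real.log N := l2.trans_le lN
  set p : ℕ := ⌊c * Real.log N / q⌋₊ + 2 with hp
  have p1 : c * Real.log N / q < (p : ℝ) := by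
    have := Nat.lt_floor_add_one (c * Real.log N / q)
    rw [hp]
    push_cast
    linarith
  have p2 : (p : ℝ) ≤ d * Real.log N := by
    have h1 : (⌊c * Real.log N / q⌋₊ : ℝ) ≤ c * Real.log N / q := Nat.floor_le (by positivity)
    have h2 : 2 ≤ 2 / Real.log 2 * Real.log N := by
      rw [div_mul_eq_mul_div, le_div_iff₀ l2]
      nlinarith
    have h3 : d * Real.log N = c * Real.log N / q + 2 / Real.log 2 * Real.log N := by
      rw [hd]; ring
    rw [hp, h3]
    push_cast
    linarith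
  have key : (1 - q) ^ p * (2 ^ k * N * (3 * N + 1)) < q := by
    have h1 : (1 - q) ^ p ≤ Real.exp (-(q * p)) := by
      have h2 : 1 - q ≤ Real.exp (-q) := by
        have := Real.add_one_le_exp (-q)
        linarith
      calc (1 - q) ^ p ≤ Real.exp (-q) ^ p := pow_le_pow_left₀ (by linarith) h2 p
        _ = Real.exp (-(q * p)) := by
            rw [← Real.exp_nat_mul]
            congr 1
            ring
    have h3 : (2 ^ k * (N : ℝ) * (3 * N + 1)) ≤ 2 ^ (k + 2) * (N : ℝ) ^ 2 := by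
      have : (2 : ℝ) ^ (k + 2) = 4 * 2 ^ k := by ring
      rw [this]
      have h4 : (0 : ℝ) < 2 ^ k := by positivity
      nlinarith [mul_pos h4 N0]
    have h5 : Real.log (2 ^ (k + 2) * (N : ℝ) ^ 2 / q) ≤ c * Real.log N := by
      rw [div_eq_mul_one_div, Real.log_mul (by positivity) (by positivity),
        Real.log_mul (by positivity) (by positivity), Real.log_pow, Real.log_pow]
      push_cast
      have h6 : Real.log (1 / q) ≤ Real.log (1 / q) / Real.log 2 * Real.log N := by
        rw [div_mul_eq_mul_div, le_div_iff₀ l2]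
        exact mul_le_mul_of_nonneg_left lN lq
      have h7 : ((k : ℝ) + 2) * Real.log 2 ≤ ((k : ℝ) + 2) * Real.log N :=
        mul_le_mul_of_nonneg_left lN (by positivity)
      have h8 : c * Real.log N = ((k : ℝ) + 2) * Real.log N + 2 * Real.log N +
          Real.log (1 / q) / Real.log 2 * Real.log N := by
        rw [hc]; ring
      rw [h8]
      linarith
    have h9 : c * Real.log N < q * p := by
      have := (div_lt_iff₀ q0).1 p1
      linarith
    have h10 : 2 ^ (k + 2) * (N : ℝ) ^ 2 / q < Real.exp (q * p) := by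
      rw [← Real.log_lt_iff_lt_exp (by positivity)]
      linarith
    have h11 : 2 ^ (k + 2) * (N : ℝ) ^ 2 < q * Real.exp (q * p) := by
      rw [div_lt_iff₀ q0] at h10
      linarith
    calc (1 - q) ^ p * (2 ^ k * N * (3 * N + 1))
        ≤ Real.exp (-(q * p)) * (2 ^ (k + 2) * (N : ℝ) ^ 2) :=
          mul_le_mul h1 h3 (by positivity) (Real.exp_pos _).le
      _ < Real.exp (-(q * p)) * (q * Real.exp (q * p)) :=
          mul_lt_mul_of_pos_left h11 (Real.exp_pos _)
      _ = q := by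
          rw [Real.exp_neg]
          field_simp
  have h := hM n k p H C hk (by omega) hN hC hS key
  have h' : (N : ℝ) ≤ (3 * (C.size : ℝ) + 1) * ((p : ℝ) ^ (k - 1) * ((k - 1).factorial : ℝ)) ^ 2 := by
    exact_mod_cast h
  have hpp : (p : ℝ) ^ (k - 1) ≤ d ^ (k - 1) * Real.log N ^ (k - 1) := by
    rw [← mul_pow]
    exact pow_le_pow_left₀ (by positivity) p2 _
  have hF : (0 : ℝ) ≤ ((k - 1).factorial : ℝ) := by positivity
  have h2 : ((p : ℝ) ^ (k - 1) * ((k - 1).factorial : ℝ)) ^ 2 ≤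
      (d ^ (k - 1) * ((k - 1).factorial : ℝ)) ^ 2 * Real.log N ^ (2 * k - 2) := by
    have e : Real.log N ^ (2 * k - 2) = (Real.log N ^ (k - 1)) ^ 2 := by
      rw [← pow_mul]
      congr 1
      omega
    rw [e, ← mul_pow]
    refine pow_le_pow_left₀ (by positivity) ?_ 2
    calc (p : ℝ) ^ (k - 1) * ((k - 1).factorial : ℝ)
        ≤ (d ^ (k - 1) * Real.log N ^ (k - 1)) * ((k - 1).factorial : ℝ) :=
          mul_le_mul_of_nonneg_right hpp hF
      _ = d ^ (k - 1) * ((k - 1).factorial : ℝ) * Real.log N ^ (k - 1) := by ring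
  have hs : (3 * (C.size : ℝ) + 1) ≤ 3 * ((C.size : ℝ) + 1) := by linarith
  calc (N : ℝ) ≤ (3 * (C.size : ℝ) + 1) * ((p : ℝ) ^ (k - 1) * ((k - 1).factorial : ℝ)) ^ 2 := h'
    _ ≤ 3 * ((C.size : ℝ) + 1) * ((d ^ (k - 1) * ((k - 1).factorial : ℝ)) ^ 2 *
        Real.log N ^ (2 * k - 2)) := mul_le_mul hs h2 (by positivity) (by positivity)
    _ = _ := by ring

end Pool.Agent.W2helper97.CU
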